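import Mathlib
import Pool.Agent.Lib.MP_4e922d_lc.Main

set_option autoImplicit false

namespace Pool.Agent.Results.MP_4e922d_lc.NotEquivalent

/-- **The two statements are not equivalent in ZF.**

There is a countable transitive model `N` of ZF in which every uncountable compact metrizable
space `X` satisfies `|X| ≥ 2^ℵ₀` (`MCU N`, the statement `M(C(≰ ℵ₀), ≥ 2^ℵ₀)` in `N`), but in which
some compact metrizable space is not separable (`¬ MCS N`, the failure of `M(C, S)` in `N`). -/
theorem result : ∃ N : Set ZFSet.{0}, N.Countable ∧ SymExt.IsZF N ∧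
    SymExt.MCU N ∧ ¬ SymExt.MCS N :=
  SymExt.Cir.main

end Pool.Agent.Results.MP_4e922d_lc.NotEquivalent
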